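import Pool.Agent.P.MP_60ae12_al.T.Exh

open Pool.Agent.P.MP_60ae12_al Pool.Agent.P.MP_60ae12_al.T Filter Topology Set
open scoped ENNReal

namespace Pool.Agent.Results.MP_60ae12_al.AnalyticP

/-- The filter dual to the exhaustive ideal of a lower semicontinuous submeasure on the natural
numbers never has a maximal stabilizer. -/
theorem result (φ : Set ℕ → ℝ≥0∞) (h0 : φ ∅ = 0) (hm : Monotone φ)
    (hs : ∀ A B, φ (A ∪ B) ≤ φ A + φ B) (hl : ∀ A, φ A = ⨆ n, φ (A ∩ Set.Iio n))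
    (F : Filter ℕ) (hF : ∀ Δ : Set ℕ, Δ ∈ F ↔ Tendsto (fun n => φ (Δᶜ ∩ Set.Ici n)) atTop (𝓝 0)) :
    ¬ IsCoatom (stab F) := by
  intro hc
  have h : Sm φ (dual F) := ⟨h0, hm, hs, hl, fun A => by
    show Aᶜ ∈ F ↔ _
    rw [hF, compl_compl]⟩
  have hN : F.NeBot := by
    refine ⟨fun hb => hc.1 ?_⟩
    rw [stab_eq, eq_top_iff]
    refine le_St_of fun g _ A _ => ?_
    show _ ∈ F
    rw [hb]
    exact Filter.mem_bot
  have hu : ∀ A : Set ℕ, Cardinal.mk A ≤ Cardinal.aleph0 := fun A => Cardinal.mk_le_aleph0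
  rcases (classif F hN).1 hc with ⟨K, ⟨x, hx⟩, -, -, -, μ, -, hK⟩ | ⟨Φ, h1, h2, -⟩ |
    ⟨F', h1, h2, h3, μ, hμ, hK⟩
  · refine ((hK {x}ᶜ).1 ((h.exh {x}).2 ?_)).1 hx rfl
    refine tendsto_const_nhds.congr' ?_
    filter_upwards [eventually_gt_atTop x] with n hn
    rw [show ({x} : Set ℕ) ∩ Ici n = ∅ from by
      rw [singleton_inter_eq_empty]; exact not_le.2 hn, h0]
  · rw [Cardinal.mk_nat, Cardinal.lt_aleph0_iff_set_finite] at h2
    exact h1 h2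
  · obtain ⟨E, hg, ht⟩ := good_of_superclosed h1 h2
    obtain rfl : F = F' := Filter.ext fun Δ => (hK Δ).trans
      ⟨fun h4 => h4.1, fun h4 => ⟨h4, ((hu _).trans hg.inf).trans_lt hμ⟩⟩
    refine h.not_homI hg.idl hg.proper (fun A hA => ?_) ((homog_iff F).1 h3)
    obtain ⟨B, b1, b2, b3⟩ := ht A ((hg.le_univ.trans (hu _)).trans
      (Cardinal.aleph0_le_mk_iff.2 (Set.infinite_coe_iff.2 hA)))
    exact ⟨B, b1, b2, Set.infinite_coe_iff.1 (Cardinal.aleph0_le_mk_iff.1 (hg.inf.trans b3))⟩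

end Pool.Agent.Results.MP_60ae12_al.AnalyticP
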