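import Pool.Agent.P.MP_60ae12_al.T.Excl

open Pool.Agent.P.MP_60ae12_al Pool.Agent.P.MP_60ae12_al.T Filter Topology

namespace Pool.Agent.Results.MP_60ae12_al.MeasureType

universe u

/-- Ultrafilter limits of densities in disjoint finite blocks give filters with maximal
stabilizer that are neither finite meets of isomorphic ultrafilters nor homogeneous. -/
theorem result {Ω ι : Type u} (Y : ι → Finset Ω) (hY : Pairwise fun i j => Disjoint (Y i) (Y j))
    (U : Ultrafilter ι) (hU : Tendsto (fun i => (Y i).card) U atTop) :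
    ∃ F : Filter Ω, (∀ Δ : Set Ω, Δ ∈ F ↔
        Tendsto (fun i => ((Δ ∩ Y i).ncard : ℝ) / (Y i).card) U (𝓝 1)) ∧
      IsCoatom (stab F) ∧ TypeII F ∧ ¬ TypeI F ∧ ¬ TypeIII F := by
  obtain ⟨m, h⟩ := exists_blk (U := U) (fun i j x hi hj => by
    by_contra hc
    exact Finset.disjoint_left.1 (hY hc) hi hj) hU
  obtain ⟨F, hF, hd, hs⟩ := h.filter
  obtain ⟨E, hg, ht⟩ := good_of_superclosed hF hs
  have hh : HomI (dual F) := hd ▸ h.homI
  have h2 : TypeII F := typeII_of_inv hg ht hh (hd ▸ h.inv) (hd ▸ h.split)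
  refine ⟨F, fun Δ => ?_, coatom_of_homog hF hs ((homog_iff F).2 hh), h2, not_typeI h2,
    not_typeIII hg h2⟩
  rw [mem_iff_dual, hd, Set.mem_ofPred_eq, h.mean.compl, sub_eq_zero]
  exact ⟨fun e => e ▸ h.lim Δ, fun e => tendsto_nhds_unique e (h.lim Δ)⟩

end Pool.Agent.Results.MP_60ae12_al.MeasureType
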