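import Pool.Agent.P.MP_60ae12_al.T.Crit

open Pool.Agent.P.MP_60ae12_al Pool.Agent.P.MP_60ae12_al.T

namespace Pool.Agent.Results.MP_60ae12_al.Types

universe u

/-- The list of all proper filters on an arbitrary set whose stabilizer is a maximal subgroup of
the symmetric group; the superclosed ones fall into three types. -/
theorem result {Ω : Type u} (F : Filter Ω) (hF : F.NeBot) :
    IsCoatom (stab F) ↔
      (∃ K : Set Ω, K.Nonempty ∧ Kᶜ.Nonempty ∧ (K.Finite ∨ Kᶜ.Finite) ∧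
        (Cardinal.mk K ≠ Cardinal.mk (Kᶜ : Set Ω) ∨ Cardinal.mk Ω = 2) ∧
        ∃ μ : Cardinal.{u}, 1 < μ ∧
          ∀ Δ : Set Ω, Δ ∈ F ↔ K ⊆ Δ ∧ Cardinal.mk (Δᶜ : Set Ω) < μ) ∨
      (∃ Φ : Set Ω, Φ.Infinite ∧ Cardinal.mk Φ < Cardinal.mk Ω ∧
        ((∃ μ : Cardinal.{u}, Cardinal.mk Φ < μ ∧
          ∀ Δ : Set Ω, Δ ∈ F ↔
            Cardinal.mk (Φ \ Δ : Set Ω) < Cardinal.mk Φ ∧ Cardinal.mk (Δᶜ : Set Ω) < μ) ∨
        ∀ Δ : Set Ω, Δ ∈ F ↔ Cardinal.mk (Φᶜ \ Δ : Set Ω) < Cardinal.mk Φ)) ∨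
      (∃ F' : Filter Ω, F'.NeBot ∧ Superclosed F' ∧ (TypeI F' ∨ TypeII F' ∨ TypeIII F') ∧
        ∃ μ : Cardinal.{u}, depth F' < μ ∧
          ∀ Δ : Set Ω, Δ ∈ F ↔ Δ ∈ F' ∧ Cardinal.mk (Δᶜ : Set Ω) < μ) := by
  rw [classif F hF]
  refine or_congr_right (or_congr_right (exists_congr fun F' => ?_))
  refine and_congr_right fun h1 => and_congr_right fun h2 => ?_
  rw [homog_iff_types h1 h2]

end Pool.Agent.Results.MP_60ae12_al.Types
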